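import Pool.Agent.MP_bf7174_co.O.R5

/-!
# MP_bf7174_co: thinnest covering of three-space by equal balls

Every covering of three-space by closed balls of a common radius has lower density at least `1.4324`.
This is larger than the simplex bound `(3 √3 / 2) (3 arccos (1/3) - π) = 1.43228...` of Coxeter, Few
and Rogers (1959).
-/

set_option autoImplicit false

namespace Pool.Agent.Results.MP_bf7174_co.AboveSimplexBound

theorem result : ∀ (C : Set (EuclideanSpace ℝ (Fin 3))) (r : ℝ), 0 < r →
    (⋃ c ∈ C, Metric.closedBall c r) = Set.univ →
    ENNReal.ofReal 1.4324 ≤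
      Filter.liminf
        (fun R : ℝ =>
          ENat.toENNReal (C ∩ Metric.closedBall (0 : EuclideanSpace ℝ (Fin 3)) R).encard *
            MeasureTheory.volume (Metric.closedBall (0 : EuclideanSpace ℝ (Fin 3)) r) /
            MeasureTheory.volume (Metric.closedBall (0 : EuclideanSpace ℝ (Fin 3)) R))
        Filter.atTop :=
  fun C r hr hC => BccO.density_bound C r hr hC

end Pool.Agent.Results.MP_bf7174_co.AboveSimplexBound
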