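import Pool.Agent.LAY.Fin
import Pool.Agent.LAY.B1
import Pool.Agent.LAY.D5

/-!
# MP_bf7174_co: thinnest covering of three-space by equal balls

Let `C` be a set of points of three-space lying in a family of parallel planes such that consecutive
planes have distance at least `r`; the distances may vary, and the subsets of `C` in the planes are
arbitrary and unrelated. If the closed balls of radius `r` about the points of `C` cover space, the
lower density of the covering is at least `5 √5 π / 24`, the density of the body-centred cubic
covering. The body-centred cubic covering is itself of this kind, so the minimum of the density over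
the layered coverings is `5 √5 π / 24`. Every lattice is of this kind with some distance `d` that is
at least its covering radius, so Bambah's theorem on lattice coverings is a special case.

Idea of the proof (`r = 1`). Slabs of width less than `ρ` are stretched to width `ρ > 1`; the new set
covers with radius `√((3 + ρ²) / 4) < ρ`. After a generic perturbation inside the planes every Delaunay
cell has its vertices in two adjacent planes, so it is of type (3,1) or (2,2). A weight is given to the
faces with two vertices in one plane and one in the next: the signed area of its projection times a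
quadratic function of the face with coefficients depending on the distance `h` of the two planes. The
weights of the two cells at a face cancel, and for every cell `(4/V₀) vol ≤ χ + (sum of its weights)`,
where `χ = 1` for the type (3,1), `χ = 0` for the type (2,2) and `V₀ = 32/(5√5)`. Finally there are at
most four cells of type (3,1) per point.
-/

set_option autoImplicit false

namespace Pool.Agent.Results.MP_bf7174_co.LayeredCoverings

/-- three-space -/
abbrev E3 : Type := EuclideanSpace ℝ (Fin 3)

/-- the closed balls of radius `r` about the points of `C` cover space -/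
def Covers (C : Set E3) (r : ℝ) : Prop := (⋃ c ∈ C, Metric.closedBall c r) = Set.univ

/-- the lower density of the closed balls of radius `r` about the points of `C` -/
noncomputable def lowerDensity (C : Set E3) (r : ℝ) : ENNReal :=
  Filter.liminf
    (fun R : ℝ =>
      ENat.toENNReal (C ∩ Metric.closedBall (0 : E3) R).encard *
        MeasureTheory.volume (Metric.closedBall (0 : E3) r) /
        MeasureTheory.volume (Metric.closedBall (0 : E3) R))
    Filter.atTop

/-- the points of `C` lie in the parallel planes `⟪x, n⟫ = t k`, `k ∈ ℤ` (`n` a unit vector), and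
consecutive planes have distance at least `d` -/
def Layered (C : Set E3) (d : ℝ) : Prop :=
  ∃ (n : E3) (t : ℤ → ℝ), ‖n‖ = 1 ∧ (∀ k : ℤ, t k + d ≤ t (k + 1)) ∧
    ∀ x ∈ C, ∃ k : ℤ, inner ℝ x n = t k

/-- the body-centred cubic lattice -/
def bcc : Set E3 := {x | (∀ i, ∃ m : ℤ, x i = m) ∨ (∀ i, ∃ m : ℤ, x i = m + 1 / 2)}

theorem result :
    (∀ (C : Set E3) (r : ℝ), 0 < r → Layered C r → Covers C r →
      ENNReal.ofReal (5 * Real.sqrt 5 * Real.pi / 24) ≤ lowerDensity C r) ∧
    (Layered bcc (Real.sqrt 5 / 4) ∧ Covers bcc (Real.sqrt 5 / 4) ∧
      lowerDensity bcc (Real.sqrt 5 / 4) = ENNReal.ofReal (5 * Real.sqrt 5 * Real.pi / 24)) ∧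
    (∀ (L : Submodule ℤ E3) [DiscreteTopology L] [IsZLattice ℝ L],
      ∃ d : ℝ, 0 < d ∧ Layered (L : Set E3) d ∧ Covers (L : Set E3) d) := by
  refine ⟨fun C r hr hL hC => ?_, ⟨?_, ?_, ?_⟩, fun L _ _ => ?_⟩
  · obtain ⟨n, t, hn, ht, hX⟩ := hL
    exact LAY.layered_covering hr hn ht hX hC
  · obtain ⟨n, hn, t, ht, hX⟩ := LAY.bcc_layered
    exact ⟨n, t, hn, ht, hX⟩
  · unfold Covers
    rw [Set.eq_univ_iff_forall]
    intro p
    obtain ⟨x, hx, hp⟩ := LAY.bcc_cov p
    exact Set.mem_iUnion₂.2 ⟨x, hx, Metric.mem_closedBall.2 hp⟩
  · exact LAY.bcc_tendsto.liminf_eq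
  · obtain ⟨d, hd, ⟨n, t, hn, ht, hX⟩, hcov⟩ := LAY.lattice_layered L
    refine ⟨d, hd, ⟨n, t, hn, ht, hX⟩, ?_⟩
    unfold Covers
    rw [Set.eq_univ_iff_forall]
    intro p
    obtain ⟨x, hx, hp⟩ := hcov p
    exact Set.mem_iUnion₂.2 ⟨x, hx, Metric.mem_closedBall.2 hp⟩

end Pool.Agent.Results.MP_bf7174_co.LayeredCoverings
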