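import Pool.Agent.PEN.Fin2

/-!
# MP_bf7174_co: thinnest covering of three-space by equal balls

The body-centred cubic covering is optimal among all coverings, lattice or not, whose Voronoi cells
have on average at most 14 faces and at least 6 quadrangular faces.

Let `X` be a set of points, `r > 0`, and let `D` be a face-to-face decomposition of three-space into
tetrahedra with vertex set `X` all of which have circumradius at most `r`. (If the balls of radius `r` about
the points of `X` cover space, then the Delaunay tetrahedra of `X` have this property.) For `x ∈ X` let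
`nf D x` be the number of edges of `D` at `x` and `nv D k x` the number of those which lie in exactly `k`
tetrahedra (if `D` is the Delaunay triangulation and `X` is in general position, these are the numbers of
faces and of `k`-gonal faces of the Voronoi cell of `x`). If the average of
`nf + κ (6 - nv 4) - (2 / 5) nv 3`, `κ = 7 √3 π / 250 = 0.1523...`, over the points of `X` in the windows `W R` is
eventually at most `φ`, then the lower density of the balls is at least `12 / (φ - 2)` times
`5 √5 π / 24`; for `φ = 14` this is the density of the body-centred cubic covering. The windows are the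
balls or the cubes centred at the origin. No periodicity is assumed.

The Voronoi cells of a lattice in general position have 14 faces, 6 of them quadrangular, so the
theorem contains Bambah's theorem. The proof rests on an inequality for tetrahedra inscribed in the unit
sphere, `vol T ≤ 5 c + ∑ min (t (π/2 - θ)) (s (θ - π/3))`, the sum being over the six dihedral angles,
`c = 16 √5 / 375`, `t = 0.58 c`, `s = 0.42 · 8 √15 / 375`, with equality for the tetrahedron of the body-centred
cubic lattice.
-/

set_option autoImplicit false

namespace Pool.Agent.Results.MP_bf7174_co.QuadrangularFaces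

open BccCov BccP

theorem result (X : Set (EuclideanSpace ℝ (Fin 3))) (r : ℝ) (hr : 0 < r)
    (D : Set (Finset (EuclideanSpace ℝ (Fin 3))))
    (hT : IsTriangulation X D) (hI : ∀ t ∈ D, Inscribed t r)
    (hV : ∀ x ∈ X, ∃ t ∈ D, x ∈ t) (φ : ℝ) (hφ : 2 < φ)
    (W : ℝ → Set (EuclideanSpace ℝ (Fin 3)))
    (hW : (∀ R, W R = Metric.closedBall 0 R) ∨ (∀ R, W R = {x | ∀ i, |x i| ≤ R}))
    (h : ∀ᶠ R in Filter.atTop,
      ∑ᶠ x ∈ X ∩ W R, ((nf D x : ℝ) + 7 * √3 * Real.pi / 250 * (6 - (nv D 4 x : ℝ))
          - 2 / 5 * (nv D 3 x : ℝ))
        ≤ φ * (((X ∩ W R).ncard : ℕ) : ℝ)) :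
    ENNReal.ofReal (12 / (φ - 2) * (5 * Real.sqrt 5 * Real.pi / 24)) ≤
      Filter.liminf
        (fun R : ℝ =>
          ENat.toENNReal (X ∩ W R).encard *
            MeasureTheory.volume (Metric.closedBall (0 : EuclideanSpace ℝ (Fin 3)) r) /
            MeasureTheory.volume (W R))
        Filter.atTop :=
  quad_final X r hr D hT hI hV φ hφ W hW h

end Pool.Agent.Results.MP_bf7174_co.QuadrangularFaces
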