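import Pool.Agent.TPC.K2
import Pool.Agent.TPC.M3

/-!
# MP_bf7174_co: thinnest covering of three-space by equal balls

(A) Every covering of three-space by closed balls of a common radius `r` whose centres are the points
of a lattice `L` and of one translate `u + L` of it has lower density at least `5 √5 π / 24`, the
density of the body-centred cubic covering. The lattice and the vector `u` are arbitrary (for `u ∈ L`
this is Bambah's theorem on lattice coverings).

(B) Every covering by closed balls of radius `r` whose centre set is the union of two arbitrary sets,
each of them with minimal distance at least `s r`, where `√3 < s < 2`, has lower density at least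
`8 (arccos (1 - 2 k) + 2 arccos k - π) / (s² √(4 - s²))`, `k = s² / (16 - 3 s²)`.

(C) For `s = 4 / √5`, the ratio of the minimal distance of the two cubic lattices and the radius in
the body-centred cubic covering, the bound of (B) is `5 √5 π / 24`.

Idea of the proof of (A). Let `T` be a tetrahedron inscribed in the unit sphere, `Ω` the sum of its
four solid angles and `Φ` the sum of its dihedral angles at the four edges joining two opposite edges.
Then `vol T ≤ (x_L / 2) Ω + (x_m - x_L) Φ` with constants `x_m`, `x_L` for which equality holds for the
tetrahedron of the body-centred cubic lattice; this follows from a convexity property of Gaussian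
integrals. If every Delaunay tetrahedron has two vertices in `L` and two in `u + L` then summation gives
the theorem, because every point has at most 8 Delaunay neighbours in the other class (at most one in
each class modulo `2 L`). Otherwise `L` has a plane section of small area and, either the determinant of
`L` is small, or the two lattices generated by this plane section and `u`, respectively a vector
complementary to `u`, are lattice coverings, so that Bambah's theorem can be applied to both.

Idea of the proof of (B). No triangle with sides at least `√3 r` fits into a ball of radius `r`, so every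
Delaunay tetrahedron has two vertices in each class, and two opposite edges of length at least `s r`;
by the same convexity property `vol T / Ω` is at most its value at the most symmetric one.
-/

set_option autoImplicit false

namespace Pool.Agent.Results.MP_bf7174_co.TwoClasses

/-- three-space -/
abbrev E3 : Type := EuclideanSpace ℝ (Fin 3)

/-- the closed balls of radius `r` about the points of `C` cover space -/
def Covers (C : Set E3) (r : ℝ) : Prop := (⋃ c ∈ C, Metric.closedBall c r) = Set.univ

/-- the lower density of the closed balls of radius `r` about the points of `C` -/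
noncomputable def lowerDensity (C : Set E3) (r : ℝ) : ENNReal :=
  Filter.liminf
    (fun R : ℝ =>
      ENat.toENNReal (C ∩ Metric.closedBall (0 : E3) R).encard *
        MeasureTheory.volume (Metric.closedBall (0 : E3) r) /
        MeasureTheory.volume (Metric.closedBall (0 : E3) R))
    Filter.atTop

/-- distinct points of `A` have distance at least `d` -/
def Separated (A : Set E3) (d : ℝ) : Prop := ∀ x ∈ A, ∀ y ∈ A, x ≠ y → d ≤ dist x y

/-- the bound of part (B) -/
noncomputable def bound (s : ℝ) : ℝ :=
  8 * (Real.arccos (1 - 2 * (s ^ 2 / (16 - 3 * s ^ 2))) +
    2 * Real.arccos (s ^ 2 / (16 - 3 * s ^ 2)) - Real.pi) / (s ^ 2 * Real.sqrt (4 - s ^ 2))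

theorem result :
    (∀ (L : Submodule ℤ E3) [DiscreteTopology L] [IsZLattice ℝ L] (u : E3) (r : ℝ), 0 < r →
      Covers ((L : Set E3) ∪ (fun x => u + x) '' (L : Set E3)) r →
      ENNReal.ofReal (5 * Real.sqrt 5 * Real.pi / 24) ≤
        lowerDensity ((L : Set E3) ∪ (fun x => u + x) '' (L : Set E3)) r) ∧
    (∀ (A B : Set E3) (r s : ℝ), 0 < r → Real.sqrt 3 < s → s < 2 →
      Separated A (s * r) → Separated B (s * r) → Covers (A ∪ B) r →
      ENNReal.ofReal (bound s) ≤ lowerDensity (A ∪ B) r) ∧
    (∀ (A B : Set E3) (r : ℝ), 0 < r →
      Separated A (4 / Real.sqrt 5 * r) → Separated B (4 / Real.sqrt 5 * r) → Covers (A ∪ B) r →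
      ENNReal.ofReal (5 * Real.sqrt 5 * Real.pi / 24) ≤ lowerDensity (A ∪ B) r) := by
  refine ⟨fun L _ _ u r hr hC => TPC.two_translates L u r hr hC,
    fun A B r s hr hs hs2 hA hB hC => TPC.two_separated A B r s hr hs hs2 hA hB hC,
    fun A B r hr hA hB hC => ?_⟩
  rw [← TPC.Th_bcc]
  have h5 : 0 < Real.sqrt 5 := Real.sqrt_pos.2 (by norm_num)
  have h55 : Real.sqrt 5 ^ 2 = 5 := Real.sq_sqrt (by norm_num)
  refine TPC.two_separated A B r (4 / Real.sqrt 5) hr ?_ ?_ hA hB hC
  · rw [Real.sqrt_lt' (by positivity), div_pow, h55]; norm_num
  · rw [div_lt_iff₀ h5]
    nlinarith

end Pool.Agent.Results.MP_bf7174_co.TwoClasses
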